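import Pool.Agent.Y817.ISO.Stm

/-!
# ISO: the universal property of the amalgam (AMUP)
(helper70, for the project ISO of helper817)
-/

set_option autoImplicit false

namespace Pool.Agent.H70ISO

open Pool.Agent.Y817.ISO Monoid

section

variable {E U : Type} [Group E] [Group U] (β : E →* U)

/-- the embedding of `U` -/
def oU : U →* Amal β := PushoutI.of (φ := famHom β) false

/-- the embedding of the other factor -/
def oC : E × Multiplicative (ZMod 5) →* Amal β := PushoutI.of (φ := famHom β) true

/-- the new generator -/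
def cc : Amal β := oC β (1, Multiplicative.ofAdd 1)

theorem oC_inl (e : E) : oC β (e, 1) = oU β (β e) := by
  have h1 : PushoutI.of (φ := famHom β) true (famHom β true e) = PushoutI.base (famHom β) e :=
    PushoutI.of_apply_eq_base (famHom β) true e
  have h2 : PushoutI.of (φ := famHom β) false (famHom β false e) = PushoutI.base (famHom β) e :=
    PushoutI.of_apply_eq_base (famHom β) false e
  exact h1.trans h2.symm

theorem ofAdd_pow (n : ℕ) : (Multiplicative.ofAdd (1 : ZMod 5)) ^ n =
    Multiplicative.ofAdd (n : ZMod 5) := by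
  rw [← ofAdd_nsmul, nsmul_one]

theorem cc_pow (n : ℕ) : cc β ^ n = oC β (1, Multiplicative.ofAdd (n : ZMod 5)) := by
  unfold cc
  rw [← map_pow]
  congr 1
  rw [Prod.pow_mk, one_pow, ofAdd_pow]

theorem cc_five : cc β ^ 5 = 1 := by
  rw [cc_pow]
  have : ((5 : ℕ) : ZMod 5) = 0 := by decide
  rw [this]
  exact map_one _

theorem pow_five {H : Type} [Group H] {c : H} (hc : c ^ 5 = 1) (n : ℕ) : c ^ (n % 5) = c ^ n := by
  conv_rhs => rw [← Nat.mod_add_div n 5]
  rw [pow_add, pow_mul, hc, one_pow, mul_one]

/-- the homomorphism from the cyclic group of order five -/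
def z5 {H : Type} [Group H] (c : H) (hc : c ^ 5 = 1) : Multiplicative (ZMod 5) →* H where
  toFun k := c ^ (Multiplicative.toAdd k).val
  map_one' := by simp
  map_mul' a b := by
    rw [toAdd_mul, ZMod.val_add, pow_five hc, pow_add]

end

theorem t_AMUP : StmAmUP := by
  intro E U _ _ β
  refine ⟨oU β, cc β, cc_five β, fun e => ?_, ?_, ?_⟩
  · rw [← oC_inl]
    show oC β _ * oC β _ = oC β _ * oC β _
    rw [← map_mul, ← map_mul]
    congr 1
    rw [Prod.mk_mul_mk, Prod.mk_mul_mk, one_mul, mul_one, one_mul, mul_one]
  · rw [eq_top_iff]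
    intro x _
    induction x using PushoutI.induction_on with
    | of i g =>
      cases i
      · have m1 : oU β g ∈ Subgroup.closure (Set.range (oU β) ∪ {cc β}) :=
          Subgroup.subset_closure (Or.inl ⟨_, rfl⟩)
        exact m1
      · obtain ⟨e, k⟩ := (g : E × Multiplicative (ZMod 5))
        have h1 : oC β (e, k) = oU β (β e) * cc β ^ (Multiplicative.toAdd k).val := by
          rw [← oC_inl, cc_pow, ← map_mul]
          congr 1
          rw [Prod.mk_mul_mk, mul_one, one_mul, ZMod.natCast_val, ZMod.cast_id]
          rfl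
        have h2 : PushoutI.of (φ := famHom β) true (e, k) = oC β (e, k) := rfl
        rw [h2, h1]
        have m1 : oU β (β e) ∈ Subgroup.closure (Set.range (oU β) ∪ {cc β}) :=
          Subgroup.subset_closure (Or.inl ⟨_, rfl⟩)
        have m2 : cc β ∈ Subgroup.closure (Set.range (oU β) ∪ {cc β}) :=
          Subgroup.subset_closure (Or.inr rfl)
        exact Subgroup.mul_mem _ m1 (Subgroup.pow_mem _ m2 _)
    | base h =>
      rw [← PushoutI.of_apply_eq_base (famHom β) false h]
      have m1 : oU β (β h) ∈ Subgroup.closure (Set.range (oU β) ∪ {cc β}) :=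
          Subgroup.subset_closure (Or.inl ⟨_, rfl⟩)
      exact m1
    | mul x y hx hy => exact Subgroup.mul_mem _ (hx trivial) (hy trivial)
  · intro H _ φ c' hc' hcomm
    have comm : ∀ (e : E) (k : Multiplicative (ZMod 5)),
        Commute ((φ.comp β) e) (z5 c' hc' k) := fun e k => (hcomm e).symm.pow_right _
    let ff : ∀ b, Fam E U b →* H := fun b => match b with
      | false => φ
      | true => MonoidHom.noncommCoprod (φ.comp β) (z5 c' hc') comm
    refine ⟨PushoutI.lift ff (φ.comp β) ?_, fun x => ?_, ?_⟩
    · intro i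
      cases i
      · rfl
      · ext e
        show MonoidHom.noncommCoprod (φ.comp β) (z5 c' hc') comm (e, 1) = _
        rw [MonoidHom.noncommCoprod_apply]
        simp
    · exact PushoutI.lift_of (φ := famHom β) ff (φ.comp β) _ (i := false) x
    · refine (PushoutI.lift_of (φ := famHom β) ff (φ.comp β) _ (i := true)
        (1, Multiplicative.ofAdd 1)).trans ?_
      show MonoidHom.noncommCoprod (φ.comp β) (z5 c' hc') comm (1, Multiplicative.ofAdd 1) = _
      rw [MonoidHom.noncommCoprod_apply, map_one, one_mul]
      show c' ^ (ZMod.val (1 : ZMod 5)) = c'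
      have : ZMod.val (1 : ZMod 5) = 1 := by decide
      rw [this, pow_one]

end Pool.Agent.H70ISO
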