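import Pool.Agent.Y817.ISO.Stm

/-!
# ISO: HNN extensions which centralise a subgroup (LEMA, SUBHNN, SQUARE)
(helper70, for the project ISO of helper817)
-/

set_option autoImplicit false

namespace Pool.Agent.H70ISO

open Pool.Agent.Y817.ISO HNNExtension HNNExtension.NormalWord

/-- every element is the product of a reduced word -/
theorem exists_reduced {G : Type} [Group G] (S : Subgroup G) (g : CE G S) :
    ∃ w : ReducedWord G S S, w.prod (MulEquiv.refl S) = g := by
  obtain ⟨d⟩ := TransversalPair.nonempty G S S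
  refine ⟨(g • (NormalWord.empty : NormalWord d)).toReducedWord, ?_⟩
  rw [NormalWord.prod_smul, NormalWord.prod_empty, mul_one]

theorem memS (G : Type) [Group G] (S : Subgroup G) (u : ℤˣ) (g : G) :
    g ∈ toSubgroup S S u ↔ g ∈ S := by
  unfold toSubgroup
  split_ifs <;> rfl

theorem t_comm {G : Type} [Group G] {S : Subgroup G} {s : G} (hs : s ∈ S) :
    (t * of s : CE G S) = of s * t := t_mul_of (φ := MulEquiv.refl S) ⟨s, hs⟩

/-! ### LEMA -/

section LemA

variable {G : Type} [Group G] (S M L : Subgroup G)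

/-- admissible lists -/
def OK : List (G × G) → Prop
  | [] => True
  | p :: w => p.1 ∈ M ∧ p.1 ∉ S ∧ p.2 ∈ L ∧ (w ≠ [] → p.2 ∉ S) ∧ OK w

/-- the value of a list -/
def val : List (G × G) → CE G S
  | [] => 1
  | p :: w => t * of p.1 * t⁻¹ * of p.2 * val w

/-- the letters of a list -/
def expand : List (G × G) → List (ℤˣ × G)
  | [] => []
  | p :: w => (1, p.1) :: (-1, p.2) :: expand w

theorem expand_prod (w : List (G × G)) :
    ((expand w).map (fun x => (t ^ (x.1 : ℤ) * of x.2 : CE G S))).prod = val S w := by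
  induction w with
  | nil => rfl
  | cons p w ih =>
    simp only [expand, List.map_cons, List.prod_cons, ih, val]
    simp [mul_assoc]

theorem expand_chain (w : List (G × G)) (hw : OK S M L w) :
    (expand w).IsChain (fun a b => a.2 ∈ toSubgroup S S a.1 → a.1 = b.1) := by
  induction w with
  | nil => exact List.isChain_nil
  | cons p w ih =>
    obtain ⟨_, h2, _, h4, h5⟩ := hw
    simp only [expand]
    rw [List.isChain_cons_cons]
    refine ⟨fun h => absurd ((memS G S _ _).1 h) h2, ?_⟩
    rcases w with _ | ⟨q, w⟩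
    · exact List.isChain_singleton _
    · have := ih h5
      simp only [expand] at this ⊢
      rw [List.isChain_cons_cons]
      exact ⟨fun h => absurd ((memS G S _ _).1 h) (h4 (by simp)), this⟩

/-- the good elements -/
def Good (y : CE G S) : Prop := ∃ l ∈ L, ∃ w, OK S M L w ∧ y = of l * val S w

theorem good_L {y : CE G S} (hy : Good S M L y) {l : G} (hl : l ∈ L) :
    Good S M L (of l * y) := by
  obtain ⟨l0, hl0, w, hw, rfl⟩ := hy
  exact ⟨l * l0, L.mul_mem hl hl0, w, hw, by rw [map_mul, mul_assoc]⟩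

theorem conj_S {m : G} (hm : m ∈ S) : (t * of m * t⁻¹ : CE G S) = of m := by
  rw [t_comm hm, mul_inv_cancel_right]

theorem good_M (hSM : S ⊓ M ≤ L) (hLM : L ≤ M) {y : CE G S} (hy : Good S M L y) {m : G}
    (hm : m ∈ M) : Good S M L (t * of m * t⁻¹ * y) := by
  by_cases hmS : m ∈ S
  · rw [conj_S S hmS]
    exact good_L S M L hy (hSM ⟨hmS, hm⟩)
  · obtain ⟨l0, hl0, w, hw, rfl⟩ := hy
    rcases w with _ | ⟨q, w⟩
    · refine ⟨1, L.one_mem, [(m, l0)], ⟨hm, hmS, hl0, fun h => absurd rfl h, trivial⟩, ?_⟩
      simp [val, mul_assoc]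
    · by_cases hl0S : l0 ∈ S
      · obtain ⟨h1, h2, h3, h4, h5⟩ := hw
        have e : (t * of m * t⁻¹ * (of l0 * val S (q :: w)) : CE G S) =
            t * of (m * l0 * q.1) * t⁻¹ * of q.2 * val S w := by
          have hc : (t⁻¹ * of l0 : CE G S) = of l0 * t⁻¹ := by
            rw [inv_mul_eq_iff_eq_mul, ← mul_assoc, t_comm hl0S, mul_inv_cancel_right]
          have : (t⁻¹ * (of l0 * (t * (of q.1 * (t⁻¹ * (of q.2 * val S w))))) : CE G S) =
              of l0 * (of q.1 * (t⁻¹ * (of q.2 * val S w))) := by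
            rw [← mul_assoc, hc, mul_assoc, ← mul_assoc t⁻¹ t, inv_mul_cancel, one_mul]
          simp only [val, map_mul, mul_assoc]
          rw [this]
        have hmem : m * l0 * q.1 ∈ M := M.mul_mem (M.mul_mem hm (hLM hl0)) h1
        rw [e]
        by_cases hin : m * l0 * q.1 ∈ S
        · rw [conj_S S hin, ← map_mul]
          exact ⟨_, L.mul_mem (hSM ⟨hin, hmem⟩) h3, w, h5, rfl⟩
        · refine ⟨1, L.one_mem, (m * l0 * q.1, q.2) :: w, ⟨hmem, hin, h3, h4, h5⟩, ?_⟩
          simp [val]
      · refine ⟨1, L.one_mem, (m, l0) :: q :: w, ⟨hm, hmS, hl0, fun _ => hl0S, hw⟩, ?_⟩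
        simp [val, mul_assoc]

theorem good_of_mem (hSM : S ⊓ M ≤ L) (hLM : L ≤ M) {y : CE G S}
    (hy : y ∈ Subgroup.closure
      ((fun g : G => (t * of g * t⁻¹ : CE G S)) '' M ∪ (fun g : G => (of g : CE G S)) '' L)) :
    Good S M L y := by
  induction hy using Subgroup.closure_induction_left with
  | one => exact ⟨1, L.one_mem, [], trivial, by simp [val]⟩
  | mul_left x hx y _ ih =>
    rcases hx with ⟨m, hm, rfl⟩ | ⟨l, hl, rfl⟩
    · exact good_M S M L hSM hLM ih hm
    · exact good_L S M L ih hl
  | inv_mul_cancel x hx y _ ih =>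
    rcases hx with ⟨m, hm, rfl⟩ | ⟨l, hl, rfl⟩
    · have h := good_M S M L hSM hLM ih (M.inv_mem hm)
      have e : ((t * of m * t⁻¹)⁻¹ : CE G S) = t * of m⁻¹ * t⁻¹ := by
        simp [mul_assoc]
      simp only
      rw [e]
      exact h
    · have h := good_L S M L ih (L.inv_mem hl)
      simp only
      rw [← map_inv]
      exact h

end LemA

theorem t_LEMA : StmLemA := by
  intro G _ S M L hSM hLM x hx
  obtain ⟨l, hl, w, hw, hxw⟩ := good_of_mem S M L hSM hLM hx
  have hw0 : expand w = [] := by
    have := HNNExtension.ReducedWord.toList_eq_nil_of_mem_of_range (MulEquiv.refl S)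
      (⟨l, expand w, expand_chain S M L w hw⟩ : ReducedWord G S S) ⟨x, by
        rw [hxw]
        unfold ReducedWord.prod
        rw [expand_prod]⟩
    exact this
  rcases w with _ | ⟨p, w⟩
  · have : (of x : CE G S) = of l := by rw [hxw]; simp [val]
    rw [HNNExtension.of_injective _ this]
    exact hl
  · simp [expand] at hw0

/-! ### SUBHNN -/

theorem t_SUBHNN : StmSubHNN := by
  intro A G _ _ α SA S hα hS
  have hx : ∀ a : SA, (t : CE G S) * (of.comp α) ↑a =
      (of.comp α) ((MulEquiv.refl SA) a : A) * t := fun a =>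
    t_comm ((hS a).2 a.2)
  refine ⟨HNNExtension.lift (of.comp α) t hx, ?_, fun a => ?_, ?_⟩
  · rw [injective_iff_map_eq_one]
    intro g hg
    obtain ⟨w, rfl⟩ := exists_reduced SA g
    have hprod : HNNExtension.lift (of.comp α) t hx (w.prod (MulEquiv.refl SA)) =
        (⟨α w.head, w.toList.map (fun p => (p.1, α p.2)), by
          rw [List.isChain_map]
          refine w.chain.imp fun a b hab h => hab ?_
          rw [memS] at h ⊢
          exact (hS _).1 h⟩ : ReducedWord G S S).prod (MulEquiv.refl S) := by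
      unfold ReducedWord.prod
      simp only [map_mul, HNNExtension.lift_of, MonoidHom.comp_apply, map_list_prod, List.map_map]
      congr 3
      ext p
      simp [HNNExtension.lift_of, HNNExtension.lift_t]
    rw [hprod] at hg
    have hnil := HNNExtension.ReducedWord.toList_eq_nil_of_mem_of_range (MulEquiv.refl S) _
      (show _ ∈ (of.range : Subgroup (CE G S)) from ⟨1, by rw [map_one]; exact hg.symm⟩)
    simp only [List.map_eq_nil_iff] at hnil
    unfold ReducedWord.prod at hg ⊢
    simp only [hnil, List.map_nil, List.prod_nil, mul_one] at hg ⊢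
    have h1 : α w.head = 1 := HNNExtension.of_injective (φ := MulEquiv.refl S) (by
      rw [hg, map_one])
    rw [hα (by rw [h1, map_one] : α w.head = α 1), map_one]
  · rw [HNNExtension.lift_of]; rfl
  · rw [HNNExtension.lift_t]

/-! ### SQUARE -/

/-- doubling the stable letters -/
def dbl {K : Type} [Group K] : List (ℤˣ × K) → List (ℤˣ × K)
  | [] => []
  | p :: w => (p.1, 1) :: (p.1, p.2) :: dbl w

theorem dbl_chain {K : Type} [Group K] (Q : Subgroup K) (l : List (ℤˣ × K))
    (h : l.IsChain (fun a b => a.2 ∈ toSubgroup Q Q a.1 → a.1 = b.1)) :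
    (dbl l).IsChain (fun a b => a.2 ∈ toSubgroup Q Q a.1 → a.1 = b.1) := by
  induction l with
  | nil => exact List.isChain_nil
  | cons p l ih =>
    simp only [dbl]
    rw [List.isChain_cons_cons]
    refine ⟨fun _ => rfl, ?_⟩
    rcases l with _ | ⟨q, l⟩
    · exact List.isChain_singleton _
    · rw [List.isChain_cons_cons] at h
      have := ih h.2
      simp only [dbl] at this ⊢
      rw [List.isChain_cons_cons]
      exact ⟨fun h' => h.1 h', this⟩

theorem t_SQUARE : StmSquare := by
  intro K _ Q
  have hx : ∀ a : Q, (t ^ 2 : CE K Q) * of (a : K) = of ((MulEquiv.refl Q) a : K) * t ^ 2 := by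
    intro a
    show (t ^ 2 : CE K Q) * of (a : K) = of (a : K) * t ^ 2
    rw [pow_two, mul_assoc, t_comm a.2, ← mul_assoc, t_comm a.2, mul_assoc]
  refine ⟨HNNExtension.lift of (t ^ 2) hx, ?_, fun k => HNNExtension.lift_of _ _ _ _, ?_⟩
  · rw [injective_iff_map_eq_one]
    intro g hg
    obtain ⟨w, rfl⟩ := exists_reduced Q g
    have key : ∀ l : List (ℤˣ × K), HNNExtension.lift of (t ^ 2 : CE K Q) hx
        ((l.map (fun x => (t ^ (x.1 : ℤ) * of x.2 : CE K Q))).prod) =
        ((dbl l).map (fun x => (t ^ (x.1 : ℤ) * of x.2 : CE K Q))).prod := by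
      intro l
      induction l with
      | nil => simp [dbl]
      | cons p l ih =>
        simp only [List.map_cons, List.prod_cons, map_mul, ih, dbl, map_zpow,
          HNNExtension.lift_of, HNNExtension.lift_t, map_one, mul_one]
        have e : ((t ^ 2) ^ (p.1 : ℤ) : CE K Q) = t ^ (p.1 : ℤ) * t ^ (p.1 : ℤ) := by
          rw [← zpow_natCast, ← zpow_mul, ← zpow_add]
          congr 1
          push_cast
          ring
        rw [e]
        simp only [mul_assoc]
    have hprod : HNNExtension.lift of (t ^ 2) hx (w.prod (MulEquiv.refl Q)) =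
        (⟨w.head, dbl w.toList, dbl_chain Q _ w.chain⟩ : ReducedWord K Q Q).prod
          (MulEquiv.refl Q) := by
      unfold ReducedWord.prod
      rw [map_mul, HNNExtension.lift_of, key]
    rw [hprod] at hg
    have hnil := HNNExtension.ReducedWord.toList_eq_nil_of_mem_of_range (MulEquiv.refl Q) _
      (show _ ∈ (of.range : Subgroup (CE K Q)) from ⟨1, by rw [map_one]; exact hg.symm⟩)
    have hnil' : w.toList = [] := by
      rcases hl : w.toList with _ | ⟨p, l⟩
      · rfl
      · simp only [hl, dbl] at hnil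
        exact absurd hnil (by simp)
    unfold ReducedWord.prod at hg ⊢
    simp only [hnil', dbl, List.map_nil, List.prod_nil, mul_one] at hg ⊢
    exact hg
  · exact HNNExtension.lift_t _ _ _

end Pool.Agent.H70ISO
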