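import Pool.Agent.Y817.ISO.Stm

/-!
# ISO: the group of the rules (KK)
(helper70, for the project ISO of helper817)
-/

set_option autoImplicit false

namespace Pool.Agent.H70ISO

open Pool.Agent.Y817.ISO

theorem T_add {P J H : Type} [Group H] (X : Multiplicative (J → ℤ) →* H) (t : P → H) (p : P)
    (u v : J → ℤ) : T X t p (u + v) =
      (X (Multiplicative.ofAdd u))⁻¹ * T X t p v * X (Multiplicative.ofAdd u) := by
  unfold T
  rw [add_comm, ofAdd_add, map_mul]
  group

theorem T_map {P J H H' : Type} [Group H] [Group H'] (X : Multiplicative (J → ℤ) →* H)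
    (t : P → H) (X' : Multiplicative (J → ℤ) →* H') (t' : P → H') (φ : H →* H')
    (hX : ∀ v, φ (X v) = X' v) (ht : ∀ p, φ (t p) = t' p) (p : P) (v : J → ℤ) :
    φ (T X t p v) = T X' t' p v := by
  unfold T
  rw [map_mul, map_mul, map_inv, hX, ht]

theorem t_KK (h1 : StmMHNN) (h2 : StmBase) (h3 : StmModel) : StmK := by
  intro P ι J _ _ D
  obtain ⟨hTF, hgen, hUP, hemb⟩ := h2 P J
  choose f hfinj hfX hft using fun i => hemb (D.dim i) (D.μ i) (D.μ_inj i) (D.src i) (D.a i)
  choose g hginj hgX hgt using fun i => hemb (D.dim i) (D.ν i) (D.ν_inj i) (D.tgt i) (D.b i)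
  obtain ⟨K, _, of, r, hof, hr, htf, hgenK, hUPK⟩ :=
    h1 (G0 P J) ι (fun i => G0 Unit (Fin (D.dim i))) f g hfinj hginj
  have hT : ∀ p v, of (T (X0 P J) t0 p v) = T (of.comp (X0 P J)) (fun p => of (t0 p)) p v :=
    fun p v => T_map _ _ _ _ of (fun _ => rfl) (fun _ => rfl) p v
  have hRel : Rel D K (of.comp (X0 P J)) (fun p => of (t0 p)) r := by
    constructor
    · intro i w
      have h := hr i (X0 Unit (Fin (D.dim i)) (Multiplicative.ofAdd w))
      rw [hfX, hgX] at h
      exact h
    · intro i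
      have h := hr i (t0 ())
      rw [hft, hgt, hT, hT] at h
      exact h
  have hUP' : ∀ (H : Type) [Group H] (X' : Multiplicative (J → ℤ) →* H) (t' : P → H)
      (r' : ι → H), Rel D H X' t' r' → ∃ Φ : K →* H,
        (∀ v, Φ ((of.comp (X0 P J)) v) = X' v) ∧ (∀ p, Φ (of (t0 p)) = t' p) ∧
        ∀ i, Φ (r i) = r' i := by
    intro H _ X' t' r' hR
    obtain ⟨φ, hφX, hφt⟩ := hUP H X' t'
    have hcond : ∀ i q, r' i * φ (f i q) = φ (g i q) * r' i := by
      intro i q
      obtain ⟨_, hgen', _, _⟩ := h2 Unit (Fin (D.dim i))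
      have hAB : (MulAut.conj (r' i)).toMonoidHom.comp (φ.comp (f i)) = φ.comp (g i) := by
        apply MonoidHom.eq_of_eqOn_dense hgen'
        rintro x (⟨v, rfl⟩ | ⟨u, rfl⟩)
        · obtain ⟨w, rfl⟩ := Multiplicative.ofAdd.surjective v
          show r' i * φ (f i _) * (r' i)⁻¹ = φ (g i _)
          rw [hfX, hgX, hφX, hφX, hR.shift, mul_inv_cancel_right]
        · show r' i * φ (f i (t0 ())) * (r' i)⁻¹ = φ (g i (t0 ()))
          rw [hft, hgt, T_map _ _ X' t' φ hφX hφt, T_map _ _ X' t' φ hφX hφt, hR.rule,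
            mul_inv_cancel_right]
      have h := DFunLike.congr_fun hAB q
      have h' : r' i * φ (f i q) * (r' i)⁻¹ = φ (g i q) := h
      rw [← h', inv_mul_cancel_right]
    obtain ⟨Φ, hΦ1, hΦ2⟩ := hUPK H φ r' hcond
    refine ⟨Φ, fun v => ?_, fun p => ?_, hΦ2⟩
    · rw [MonoidHom.comp_apply, hΦ1, hφX]
    · rw [hΦ1, hφt]
  refine ⟨K, inferInstance, of.comp (X0 P J), fun p => of (t0 p), r, hRel, htf hTF, ?_, hUP', ?_⟩
  · set C := Subgroup.closure (Set.range (of.comp (X0 P J)) ∪ Set.range (fun p => of (t0 p)) ∪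
      Set.range r) with hC
    have hof : ∀ x, of x ∈ C := by
      intro x
      have h : Subgroup.closure (Set.range (X0 P J) ∪ Set.range (t0 : P → G0 P J)) ≤
          C.comap of := by
        rw [Subgroup.closure_le]
        rintro y (⟨v, rfl⟩ | ⟨p, rfl⟩)
        · exact Subgroup.subset_closure (Or.inl (Or.inl ⟨v, rfl⟩))
        · exact Subgroup.subset_closure (Or.inl (Or.inr ⟨p, rfl⟩))
      rw [hgen] at h
      exact h (Subgroup.mem_top x)
    rw [eq_top_iff, ← hgenK, Subgroup.closure_le]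
    rintro y (⟨x, rfl⟩ | ⟨i, rfl⟩)
    · exact hof x
    · exact Subgroup.subset_closure (Or.inr ⟨i, rfl⟩)
  · intro p p' v v'
    constructor
    · rintro ⟨ρ, hρ, hconj⟩
      obtain ⟨M, _, X', t', r', hR, St, hSt, hC⟩ := h3 P ι J D
        (fun q u => Relation.EqvGen (Step D) (q, u) (p', v')) (by
          intro i w
          have hs := Relation.EqvGen.rel _ _ (Step.mk (D := D) i w)
          exact ⟨fun h => (hs.symm _ _).trans _ _ _ h, fun h => hs.trans _ _ _ h⟩)
      obtain ⟨Φ, hΦX, hΦt, hΦr⟩ := hUP' M X' t' r' hR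
      have hTΦ : ∀ q u, Φ (T (of.comp (X0 P J)) (fun p => of (t0 p)) q u) = T X' t' q u :=
        fun q u => T_map _ _ X' t' Φ hΦX hΦt q u
      have hρ' : Φ ρ ∈ St := by
        have h : Subgroup.closure (Set.range r) ≤ St.comap Φ := by
          rw [Subgroup.closure_le]
          rintro y ⟨i, rfl⟩
          show Φ (r i) ∈ St
          rw [hΦr]
          exact hSt i
        exact h hρ
      have hv' : T X' t' p' v' ∈ St := (hC p' v').2 (Relation.EqvGen.refl _)
      refine (hC p v).1 ?_
      rw [← hTΦ, hconj, map_mul, map_mul, map_inv, hTΦ]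
      exact St.mul_mem (St.mul_mem hρ' hv') (St.inv_mem hρ')
    · have key : ∀ x y : P × (J → ℤ), Relation.EqvGen (Step D) x y →
          ∃ ρ ∈ Subgroup.closure (Set.range r),
            T (of.comp (X0 P J)) (fun p => of (t0 p)) x.1 x.2 =
              ρ * T (of.comp (X0 P J)) (fun p => of (t0 p)) y.1 y.2 * ρ⁻¹ := by
        intro x y h
        induction h with
        | rel x y h =>
          obtain ⟨i, w⟩ := h
          refine ⟨(r i)⁻¹, Subgroup.inv_mem _ (Subgroup.subset_closure ⟨i, rfl⟩), ?_⟩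
          simp only
          rw [T_add, T_add]
          have e1 := hRel.shift i w
          have e2 := hRel.rule i
          set A := T (of.comp (X0 P J)) (fun p => of (t0 p)) (D.src i) (D.a i)
          set B := T (of.comp (X0 P J)) (fun p => of (t0 p)) (D.tgt i) (D.b i)
          set Y := (of.comp (X0 P J)) (Multiplicative.ofAdd (D.μ i w))
          set Z := (of.comp (X0 P J)) (Multiplicative.ofAdd (D.ν i w))
          have e3 : Z = r i * Y * (r i)⁻¹ := by rw [e1, mul_inv_cancel_right]
          have e4 : B = r i * A * (r i)⁻¹ := by rw [e2, mul_inv_cancel_right]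
          rw [e3, e4]
          group
        | refl x => exact ⟨1, Subgroup.one_mem _, by simp⟩
        | symm x y _ ih =>
          obtain ⟨ρ, hρ, h⟩ := ih
          refine ⟨ρ⁻¹, Subgroup.inv_mem _ hρ, ?_⟩
          rw [h]
          group
        | trans x y z _ _ ih1 ih2 =>
          obtain ⟨ρ, hρ, h⟩ := ih1
          obtain ⟨ρ', hρ', h'⟩ := ih2
          refine ⟨ρ * ρ', Subgroup.mul_mem _ hρ hρ', ?_⟩
          rw [h, h']
          group
      exact key (p, v) (p', v')

end Pool.Agent.H70ISO
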